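import Pool.Agent.E8helper17.CND.S

/-!
# Project CND (helper17): greedy choice of a chain of seeds
-/

set_option autoImplicit false

namespace Pool.Agent.E8helper89.CND

open H17CND

/-- the `l`-th source -/
def src {V : Type} (v0 : V) (σ : V → V) (b : ℕ → V) (l : ℕ) : V :=
  if l = 0 then v0 else σ (b (l - 1))

open Classical in
theorem key (hE : S_EXT) (hD : S_DEG) (V : Type) [Finite V] (G : SimpleGraph V) (g D n : ℕ)
    (hg : GirthGE G g) (hdeg : DegLE G D) (v0 : V) (σ : V → V) (C : ℕ → Finset V)
    (hσ : ∀ k < n, ∀ l < n, ∀ u ∈ C k, ∀ w ∈ C l, σ u = σ w → u = w)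
    (hσ0 : ∀ k < n, ∀ u ∈ C k, σ u ≠ v0)
    (hdis : ∀ k < n, ∀ l < n, k ≠ l → Disjoint (C k) (C l))
    (hcard : ∀ k < n, (D + 3) ^ g < (C k).card) :
    ∀ k ≤ n, ∃ (b : ℕ → V) (G' : SimpleGraph V), G ≤ G' ∧ GirthGE G' g ∧ (∀ l < k, b l ∈ C l) ∧
      (∀ l < k, G'.Adj (src v0 σ b l) (b l)) ∧
      ∀ v, (G'.neighborSet v).ncard ≤ (G.neighborSet v).ncard +
        (if ∃ l < k, v = src v0 σ b l then 1 else 0) + (if ∃ l < k, v = b l then 1 else 0) := by
  intro k
  induction k with
  | zero => exact fun _ => ⟨fun _ => v0, G, le_rfl, hg, by simp, by simp, by simp⟩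
  | succ k ih =>
    intro hk
    obtain ⟨b, G', h1, h2, h3, h4, h5⟩ := ih (by omega)
    have hdeg' : DegLE G' (D + 2) := by
      intro v
      have e1 := h5 v
      have e2 := hdeg v
      split_ifs at e1 <;> omega
    obtain ⟨t, ht, hta, -, hgt⟩ := hE V G' g (D + 2) (src v0 σ b k) (C k) h2 hdeg'
      (hcard k (by omega))
    have hb' : ∀ l, l < k → Function.update b k t l = b l := fun l hl =>
      Function.update_of_ne (by omega) _ _
    have hbk : Function.update b k t k = t := Function.update_self _ _ _
    have hsrc : ∀ l ≤ k, src v0 σ (Function.update b k t) l = src v0 σ b l := by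
      intro l hl
      unfold src
      by_cases h0 : l = 0
      · rw [if_pos h0, if_pos h0]
      · rw [if_neg h0, if_neg h0, hb' (l - 1) (by omega)]
    refine ⟨Function.update b k t, G' ⊔ SimpleGraph.edge (src v0 σ b k) t, h1.trans le_sup_left,
      hgt, ?_, ?_, ?_⟩
    · intro l hl
      rcases Nat.lt_succ_iff_lt_or_eq.1 hl with h | rfl
      · rw [hb' l h]
        exact h3 l h
      · rw [hbk]
        exact ht
    · intro l hl
      rcases Nat.lt_succ_iff_lt_or_eq.1 hl with h | rfl
      · rw [hb' l h, hsrc l h.le]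
        exact Or.inl (h4 l h)
      · rw [hbk, hsrc l le_rfl]
        refine Or.inr ?_
        rw [SimpleGraph.edge_adj]
        exact ⟨Or.inl ⟨rfl, rfl⟩, fun h => hta h.symm⟩
    · intro v
      have e0 := hD V G' (src v0 σ b k) t v (fun h => hta h.symm)
      have e1 := h5 v
      have c1 : v = src v0 σ b k → ¬ ∃ l < k, v = src v0 σ b l := by
        rintro rfl ⟨l, hl, he⟩
        unfold src at he
        rw [if_neg (by omega : ¬ k = 0)] at he
        have m1 := h3 (k - 1) (by omega)
        by_cases h0 : l = 0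
        · rw [if_pos h0] at he
          exact hσ0 (k - 1) (by omega) _ m1 he
        · rw [if_neg h0] at he
          have m2 := h3 (l - 1) (by omega)
          have e := hσ (k - 1) (by omega) (l - 1) (by omega) _ m1 _ m2 he
          rw [e] at m1
          exact Finset.disjoint_left.1 (hdis (k - 1) (by omega) (l - 1) (by omega) (by omega))
            m1 m2
      have c2 : v = t → ¬ ∃ l < k, v = b l := by
        rintro rfl ⟨l, hl, he⟩
        have m2 := h3 l hl
        rw [← he] at m2
        exact Finset.disjoint_left.1 (hdis k (by omega) l (by omega) (by omega)) ht m2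
      have d1 : (∃ l < k, v = src v0 σ b l) ∨ v = src v0 σ b k →
          ∃ l < k + 1, v = src v0 σ (Function.update b k t) l := by
        rintro (⟨l, hl, he⟩ | he)
        · exact ⟨l, by omega, by rw [hsrc l hl.le]; exact he⟩
        · exact ⟨k, by omega, by rw [hsrc k le_rfl]; exact he⟩
      have d2 : (∃ l < k, v = b l) ∨ v = t → ∃ l < k + 1, v = Function.update b k t l := by
        rintro (⟨l, hl, he⟩ | he)
        · exact ⟨l, by omega, by rw [hb' l hl]; exact he⟩
        · exact ⟨k, by omega, by rw [hbk]; exact he⟩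
      have f1 : (if ∃ l < k, v = src v0 σ b l then 1 else 0) + (if v = src v0 σ b k then 1 else 0) ≤
          (if ∃ l < k + 1, v = src v0 σ (Function.update b k t) l then 1 else 0) := by
        by_cases p1 : ∃ l < k, v = src v0 σ b l
        · have p2 : ¬ v = src v0 σ b k := fun h => c1 h p1
          rw [if_pos p1, if_neg p2, if_pos (d1 (Or.inl p1))]
        · by_cases p2 : v = src v0 σ b k
          · rw [if_neg p1, if_pos p2, if_pos (d1 (Or.inr p2))]
          · rw [if_neg p1, if_neg p2]
            exact Nat.zero_le _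
      have f2 : (if ∃ l < k, v = b l then 1 else 0) + (if v = t then 1 else 0) ≤
          (if ∃ l < k + 1, v = Function.update b k t l then 1 else 0) := by
        by_cases p1 : ∃ l < k, v = b l
        · have p2 : ¬ v = t := fun h => c2 h p1
          rw [if_pos p1, if_neg p2, if_pos (d2 (Or.inl p1))]
        · by_cases p2 : v = t
          · rw [if_neg p1, if_pos p2, if_pos (d2 (Or.inr p2))]
          · rw [if_neg p1, if_neg p2]
            exact Nat.zero_le _
      linarith [e0, e1, f1, f2]

theorem SEED (hE : S_EXT) (hD : S_DEG) : S_SEED := by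
  classical
  intro V _ G g D n hg hdeg v0 σ C hσ hσ0 hdis hcard
  obtain ⟨b, G', h1, h2, h3, h4, h5⟩ := key hE hD V G g D n hg hdeg v0 σ C hσ hσ0 hdis hcard n le_rfl
  refine ⟨b, G', h1, h2, ?_, h3, ?_, ?_⟩
  · intro v
    have e1 := h5 v
    have e2 := hdeg v
    split_ifs at e1 <;> omega
  · intro h0
    exact h4 0 h0
  · intro k hk
    exact h4 (k + 1) hk

end Pool.Agent.E8helper89.CND
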